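import Mathlib
import Pool.Agent.U309.ZF.Stm3

set_option autoImplicit false

/-!
# Project ZF3, package HK (helper356)
-/

open Complex Filter Topology Set Polynomial

namespace Pool.Agent.U356.ZF

lemma term_le {a : ℂ} {δ₁ δ₂ : ℝ} (h1 : 0 < δ₁) (h12 : δ₁ ≤ δ₂) (ha : a.re ≤ 0)
    (hn : (δ₂ / 2) ^ 2 ≤ normSq a) :
    (1 / ((δ₁ : ℂ) - a)).re ≤ 9 * (1 / ((δ₂ : ℂ) - a)).re := by
  rw [one_div, one_div, Complex.inv_re, Complex.inv_re, Complex.sub_re, Complex.sub_re,
    Complex.ofReal_re, Complex.ofReal_re, Complex.normSq_apply, Complex.normSq_apply,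
    Complex.sub_re, Complex.sub_re, Complex.sub_im, Complex.sub_im, Complex.ofReal_re,
    Complex.ofReal_re, Complex.ofReal_im, Complex.ofReal_im]
  rw [Complex.normSq_apply] at hn
  obtain ⟨x, hx⟩ : ∃ x : ℝ, x = -a.re := ⟨_, rfl⟩
  obtain ⟨y, hy⟩ : ∃ y : ℝ, y = a.im := ⟨_, rfl⟩
  have hx0 : 0 ≤ x := by rw [hx]; linarith
  have e1 : a.re = -x := by rw [hx]; ring
  rw [e1, ← hy] at hn
  rw [e1, ← hy]
  have p1 : 0 < (δ₁ - -x) * (δ₁ - -x) + (0 - y) * (0 - y) := by nlinarith [mul_self_nonneg y]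
  have p2 : 0 < (δ₂ - -x) * (δ₂ - -x) + (0 - y) * (0 - y) := by nlinarith [mul_self_nonneg y]
  rw [← mul_div_assoc, div_le_div_iff₀ p1 p2]
  have hr : δ₂ ^ 2 ≤ 4 * (x * x + y * y) := by nlinarith
  have k1 : (δ₂ - -x) * (δ₂ - -x) + (0 - y) * (0 - y) ≤
      9 * ((δ₁ - -x) * (δ₁ - -x) + (0 - y) * (0 - y)) := by
    nlinarith [sq_nonneg (δ₂ - 2 * x), mul_self_nonneg y, mul_nonneg h1.le hx0, mul_self_nonneg δ₁]
  have k2 : (δ₁ - -x) ≤ (δ₂ - -x) := by linarith
  have k3 : 0 ≤ δ₁ - -x := by linarith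
  calc (δ₁ - -x) * ((δ₂ - -x) * (δ₂ - -x) + (0 - y) * (0 - y))
      ≤ (δ₁ - -x) * (9 * ((δ₁ - -x) * (δ₁ - -x) + (0 - y) * (0 - y))) :=
        mul_le_mul_of_nonneg_left k1 k3
    _ ≤ (δ₂ - -x) * (9 * ((δ₁ - -x) * (δ₁ - -x) + (0 - y) * (0 - y))) :=
        mul_le_mul_of_nonneg_right k2 (by linarith)
    _ = 9 * (δ₂ - -x) * ((δ₁ - -x) * (δ₁ - -x) + (0 - y) * (0 - y)) := by ring

lemma sum_le {δ₁ δ₂ : ℝ} (h1 : 0 < δ₁) (h12 : δ₁ ≤ δ₂) (l : Multiset ℂ)
    (hl : ∀ a ∈ l, a.re ≤ 0 ∧ (δ₂ / 2) ^ 2 ≤ normSq a) :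
    ((l.map fun a => 1 / ((δ₁ : ℂ) - a)).sum).re ≤
      9 * ((l.map fun a => 1 / ((δ₂ : ℂ) - a)).sum).re := by
  induction l using Multiset.induction_on with
  | empty => simp
  | cons a l ih =>
    rw [Multiset.map_cons, Multiset.sum_cons, Multiset.map_cons, Multiset.sum_cons, Complex.add_re,
      Complex.add_re]
    have h7 := ih fun b hb => hl b (Multiset.mem_cons_of_mem hb)
    obtain ⟨h8, h9⟩ := hl a (Multiset.mem_cons_self a l)
    have h10 := term_le h1 h12 h8 h9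
    linarith

theorem t_HK : Pool.Agent.U309.ZF.S_HK := by
  intro g Q hroot hlim hg δ₁ δ₂ h1 h12 hball
  have hlim' : TendstoLocallyUniformlyOn (fun (N : ℕ) (z : ℂ) => (Q N).eval z) g atTop Set.univ :=
    hlim.tendstoLocallyUniformlyOn
  have hcont : Continuous g := hlim.continuous
    (Frequently.of_forall fun N => (Q N).continuous)
  -- the limits of the logarithmic derivatives
  have lim : ∀ z : ℂ, g z ≠ 0 →
      Tendsto (fun N => (deriv (fun z => (Q N).eval z) z / (Q N).eval z).re) atTop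
        (𝓝 (logDeriv g z).re) := by
    intro z h0
    have k1 : Tendsto (fun N => (Q N).eval z) atTop (𝓝 (g z)) := hlim'.tendsto_at (Set.mem_univ z)
    have k2 := hlim'.deriv (Eventually.of_forall fun N => ((Q N).differentiable).differentiableOn)
      isOpen_univ
    have k3 : Tendsto (fun N => deriv (fun z => (Q N).eval z) z) atTop (𝓝 (deriv g z)) :=
      k2.tendsto_at (Set.mem_univ z)
    exact (Complex.continuous_re.tendsto _).comp (k3.div k1 h0)
  -- no zeros near the origin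
  have hK : IsCompact (Metric.closedBall (0 : ℂ) (δ₂ / 2)) := isCompact_closedBall _ _
  have hne : (Metric.closedBall (0 : ℂ) (δ₂ / 2)).Nonempty :=
    ⟨0, Metric.mem_closedBall_self (by linarith)⟩
  obtain ⟨z₀, hz₀, hmin⟩ := hK.exists_isMinOn hne (hcont.norm.continuousOn)
  have hm : 0 < ‖g z₀‖ := norm_pos_iff.2 (hball z₀ (by simpa using hz₀))
  have hunif : TendstoUniformlyOn (fun (N : ℕ) (z : ℂ) => (Q N).eval z) g atTop
      (Metric.closedBall (0 : ℂ) (δ₂ / 2)) :=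
    (tendstoLocallyUniformlyOn_iff_tendstoUniformlyOn_of_compact hK).1
      (hlim'.mono (Set.subset_univ _))
  have hev := Metric.tendstoUniformlyOn_iff.1 hunif ‖g z₀‖ hm
  have hfin : ∀ᶠ N in atTop,
      (deriv (fun z => (Q N).eval z) (δ₁ : ℂ) / (Q N).eval (δ₁ : ℂ)).re ≤
        9 * (deriv (fun z => (Q N).eval z) (δ₂ : ℂ) / (Q N).eval (δ₂ : ℂ)).re := by
    filter_upwards [hev] with N hN
    have hQ : ∀ z : ℂ, 0 < z.re → (Q N).eval z ≠ 0 := by
      intro z hz h0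
      have := hroot N z h0
      linarith
    rw [Polynomial.deriv, Polynomial.deriv,
      (IsAlgClosed.splits (Q N)).eval_derivative_div_eval_of_ne_zero
        (hQ (δ₁ : ℂ) (by simpa using h1)),
      (IsAlgClosed.splits (Q N)).eval_derivative_div_eval_of_ne_zero
        (hQ (δ₂ : ℂ) (by simpa using h1.trans_le h12))]
    refine sum_le h1 h12 _ fun a ha => ?_
    have ha' := Polynomial.isRoot_of_mem_roots ha
    refine ⟨hroot N a ha', ?_⟩
    by_contra hcon
    push Not at hcon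
    have hmem : a ∈ Metric.closedBall (0 : ℂ) (δ₂ / 2) := by
      rw [mem_closedBall_zero_iff]
      rw [Complex.normSq_eq_norm_sq] at hcon
      exact le_of_lt (lt_of_pow_lt_pow_left₀ 2 (by linarith) hcon)
    have h3 := hN a hmem
    have h4 : (Q N).eval a = 0 := ha'
    rw [h4, dist_zero_right] at h3
    exact absurd h3 (not_lt.2 (hmin hmem))
  refine le_of_tendsto_of_tendsto (lim _ (hg _ (by simpa using h1)))
    ((lim _ (hg _ (by simpa using h1.trans_le h12))).const_mul 9) hfin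

end Pool.Agent.U356.ZF
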